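import Pool.Agent.Lib_helper17.FC.General

/-!
# Contra pairs and nowhere-zero flows of the contracted graph

`G` is a finite simple cubic graph and `W ≤ G` is the graph formed by the edges of weight 1 of an
eulerian `(1,2)`-weight: every vertex has degree 0 or 2 in `W`.  The other edges of `G` have
weight 2.

We prove: if this weight has no faithful circuit cover then the nowhere-zero `Z_2 × Z_2`-flows of
the contracted graph `G / W`, signed by the parity of the number of crossings between edges with
different values when the components of `W` are cut open and laid out along a line, are perfectly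
balanced.
-/

set_option autoImplicit false

namespace Pool.Agent.Results.MP_7b7176_co.FlowBalance

open Finset

section Defs

variable {V : Type}

/-- `G` is cubic, `W ≤ G` and every vertex has degree 0 or 2 in `W`. -/
def CubicPair (G W : SimpleGraph V) : Prop :=
  W ≤ G ∧ (∀ v, (G.neighborSet v).ncard = 3) ∧
    ∀ v, (W.neighborSet v).ncard = 0 ∨ (W.neighborSet v).ncard = 2

/-- A faithful circuit cover for the weight which is 1 on `W` and 2 on the other edges of `G`:
a list of closed walks that are cycles such that every edge of `W` is in exactly one of them and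
every other edge of `G` in exactly two. -/
def HasCover [DecidableEq V] (G W : SimpleGraph V) : Prop :=
  ∃ L : List (Σ u : V, G.Walk u u), (∀ c ∈ L, c.2.IsCycle) ∧
    (∀ x y, W.Adj x y → L.countP (fun c => decide (s(x, y) ∈ c.2.edges)) = 1) ∧
    (∀ x y, G.Adj x y → ¬ W.Adj x y → L.countP (fun c => decide (s(x, y) ∈ c.2.edges)) = 2)

open scoped Classical in
/-- `φ` is a nowhere-zero `Z_2 × Z_2`-flow of `G / W`: it is nonzero exactly on the edges of `G`
which are not edges of `W`, and for every component of `W` (also for single vertices not on `W`)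
the values at the edges leaving it sum to zero (edges with both ends in the component count
twice, that is, not at all). -/
def NZFlow [Fintype V] (G W : SimpleGraph V) (φ : Sym2 V → ZMod 2 × ZMod 2) : Prop :=
  (∀ a, φ a ≠ 0 ↔ a ∈ G.edgeSet ∧ a ∉ W.edgeSet) ∧
    ∀ v, ∑ x with W.Reachable v x, ∑ y, φ s(x, y) = 0

/-- The darts (oriented edges) of the edges of weight 2. -/
abbrev MDart (G W : SimpleGraph V) := {p : V × V // G.Adj p.1 p.2 ∧ ¬ W.Adj p.1 p.2}

/-- The reversed dart. -/
def rev {G W : SimpleGraph V} (s : MDart G W) : MDart G W :=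
  ⟨(s.1.2, s.1.1), s.2.1.symm, fun h => s.2.2 h.symm⟩

/-- The edge of a dart. -/
def edge {G W : SimpleGraph V} (s : MDart G W) : Sym2 V := s(s.1.1, s.1.2)

/-- The positions `(i, j)`, `i < t`, `j < d i`. -/
abbrev Slot {t : ℕ} (d : Fin t → ℕ) : Type := Σ i : Fin t, Fin (d i)

/-- The lexicographic order of the positions. -/
def prec {t : ℕ} {d : Fin t → ℕ} (u v : Slot d) : Prop :=
  u.1 < v.1 ∨ (u.1 = v.1 ∧ u.2.val < v.2.val)

/-- The permutation `(i, j) ↦ (i, j + 1 mod d i)` of the positions. -/
def rotAll {t : ℕ} (d : Fin t → ℕ) : Equiv.Perm (Slot d) :=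
  Equiv.sigmaCongrRight (fun i => finRotate (d i))

/-- `ρ` goes around every component of `W`: at a circuit of `W` it maps the dart starting at a
vertex of the circuit to the dart starting at the next vertex of the circuit, and it permutes
the three darts starting at a vertex outside `W` cyclically. -/
def IsRot {G W : SimpleGraph V} (ρ : Equiv.Perm (MDart G W)) : Prop :=
  (∀ s, ρ s ≠ s) ∧ (∀ s, ρ (ρ s) ≠ s) ∧
  (∀ s, W.Adj s.1.1 (ρ s).1.1 ∨ ((ρ s).1.1 = s.1.1 ∧ ρ (ρ (ρ s)) = s)) ∧
  (∀ x y, W.Adj x y → ∃ s, (s.1.1 = x ∧ (ρ s).1.1 = y) ∨ (s.1.1 = y ∧ (ρ s).1.1 = x))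

/-- A layout: the darts are listed component of `W` by component of `W` (according to their first
vertex), and within each component in cyclic order, starting anywhere. -/
def IsLayout {G W : SimpleGraph V} {t : ℕ} {d : Fin t → ℕ} (e : Slot d ≃ MDart G W) : Prop :=
  IsRot (e.symm.trans ((rotAll d).trans e)) ∧
    ∀ s s' : MDart G W, (e.symm s).1 = (e.symm s').1 ↔ W.Reachable s.1.1 s'.1.1

/-- The number of crossing pairs of edges with different values: pairs of darts `s, s'` which
occur in the layout in the order `s, s', rev s, rev s'` and whose edges have different values. -/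
noncomputable def crossings {G W : SimpleGraph V} {t : ℕ} {d : Fin t → ℕ}
    (e : Slot d ≃ MDart G W) (φ : Sym2 V → ZMod 2 × ZMod 2) : ℕ :=
  Nat.card {p : MDart G W × MDart G W // prec (e.symm p.1) (e.symm p.2) ∧
    prec (e.symm p.2) (e.symm (rev p.1)) ∧ prec (e.symm (rev p.1)) (e.symm (rev p.2)) ∧
    φ (edge p.1) ≠ φ (edge p.2)}

end Defs

/-- **Signed balance of the nowhere-zero `Z_2²`-flows of `G / W` for contra pairs.** If the
eulerian `(1,2)`-weight of the cubic graph `G` given by `W` has no faithful circuit cover, then
for every layout (and there is one) the nowhere-zero flows with an even number of crossings are as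
numerous as those with an odd number. -/
theorem result :
    ∀ (V : Type) [Fintype V] [DecidableEq V] (G W : SimpleGraph V),
      CubicPair G W → ¬ HasCover G W →
      (∃ (t : ℕ) (d : Fin t → ℕ) (e : Slot d ≃ MDart G W), IsLayout e) ∧
      (∀ (t : ℕ) (d : Fin t → ℕ) (e : Slot d ≃ MDart G W), IsLayout e →
        ∑ᶠ φ ∈ {φ : Sym2 V → ZMod 2 × ZMod 2 | NZFlow G W φ}, (-1 : ℤ) ^ crossings e φ = 0) := by
  classical
  intro V _ _ G W hc hno
  refine ⟨Pool.Agent.FC.enum V G W hc, ?_⟩
  intro t d e he
  have h := Pool.Agent.FC.balance_graph (G := G) (W := W) e hc hno he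
  rw [finsum_mem_eq_finite_toFinset_sum _ (Set.toFinite _), ← h]
  refine Finset.sum_congr ?_ fun φ _ => rfl
  ext φ
  simp only [Set.Finite.mem_toFinset, Set.mem_setOf_eq, Finset.mem_filter, Finset.mem_univ,
    true_and]
  rfl

end Pool.Agent.Results.MP_7b7176_co.FlowBalance
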