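import Pool.Agent.GOD.HamWeight

/-!
# Hamilton weights without contra remainders

Let `G` be a 3-connected cubic graph and `w` a Hamilton weight of `G` such that there is no
removable circuit `D` for which `w - χ_D` is a contra pair.  Then `G` has a triangle if it has at
least four vertices, and two vertex-disjoint triangles if it has at least six vertices.
-/

namespace Pool.Agent.Results.MP_7b7176_co.HamiltonTriangle

open Pool.GOD Pool.GOD.MGraph

theorem result : ∀ (V E : Type) [Fintype V] [DecidableEq V] [Fintype E] [DecidableEq E]
    (G : MGraph V E) (w : E → ℕ), G.Cubic → G.ThreeEdgeConnected → G.IsHamWeight w →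
    (∀ D, G.IsRemovable Finset.univ w D →
      ¬ G.IsContra (Finset.univ.filter (fun e => 0 < w e - chi D e)) (fun e => w e - chi D e)) →
    (4 ≤ Fintype.card V → ∃ a b c, G.IsTri a b c) ∧
      (6 ≤ Fintype.card V → ∃ a b c a' b' c', G.IsTri a b c ∧ G.IsTri a' b' c' ∧
        Disjoint ({a, b, c} : Finset V) {a', b', c'}) := by
  intro V E _ _ _ _ G w hc h3 h hrem
  exact h.triangles hc h3 hrem

end Pool.Agent.Results.MP_7b7176_co.HamiltonTriangle
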