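import Pool.Agent.ROS.Q1

/-!
# Goddyn's question: the weighted Petersen graph is the only minimal contra pair

`MGraph V E` is a finite loopless multigraph.  `G.MinContra w`: `G` is cubic, `w` is an eulerian
`(1,2)`-weight, `G` is bridgeless and has no faithful cover, no circuit is removable, and `(G - e, w)`
has a faithful cover for every edge `e` of weight 2.  The minimal contra pairs are exactly the
weighted graphs which are isomorphic to `(P10, w10)`.
-/

namespace Pool.Agent.Results.MP_7b7176_co.MinimalContraPair

open Pool.GOD Pool.GOD.MGraph

theorem result : ∀ (V E : Type) [Fintype V] [DecidableEq V] [Fintype E] [DecidableEq E]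
    (G : MGraph V E) (w : E → ℕ), G.MinContra w ↔ WIso G w P10 w10 := by
  intro V E _ _ _ _ G w
  exact Pool.ROS.goddyn_q1 V E G w

end Pool.Agent.Results.MP_7b7176_co.MinimalContraPair
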