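import Pool.Agent.Lib_helper17.FC.ExplicitG

/-!
# The order of contra pairs on permutation graphs

`G` is the cubic graph consisting of two circuits `a 0, …, a (n-1)` and `b 0, …, b (n-1)` and the
perfect matching `a i - b (π i)`; the edges of the two circuits have weight 1 and the matching edges
have weight 2.  If this weighted graph has no faithful circuit cover then `n = 1` modulo `4`, so `G`
has `2` modulo `8` vertices.
-/

set_option autoImplicit false

namespace Pool.Agent.Results.MP_7b7176_co.PermOrder

/-- **Order of contra pairs on permutation graphs.** Here `finRotate n i` is `i + 1`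
modulo `n`. -/
theorem result :
    ∀ (V : Type) [Fintype V] [DecidableEq V] (G : SimpleGraph V) (n : ℕ) (a b : Fin n → V)
      (π : Equiv.Perm (Fin n)), 3 ≤ n →
      Function.Bijective (Sum.elim a b) →
      (∀ u v, G.Adj u v ↔ ∃ i, s(u, v) = s(a i, a (finRotate n i)) ∨
        s(u, v) = s(b i, b (finRotate n i)) ∨ s(u, v) = s(a i, b (π i))) →
      (¬ ∃ L : List (Σ u : V, G.Walk u u), (∀ c ∈ L, c.2.IsCycle) ∧
        ∀ i, L.countP (fun c => decide (s(a i, a (finRotate n i)) ∈ c.2.edges)) = 1 ∧
          L.countP (fun c => decide (s(b i, b (finRotate n i)) ∈ c.2.edges)) = 1 ∧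
          L.countP (fun c => decide (s(a i, b (π i)) ∈ c.2.edges)) = 2) →
      n % 4 = 1 := by
  intro V _ _ G n a b π hn hab hG hno
  exact (Pool.Agent.FC.explicit G a b π hn hab hG hno).1

end Pool.Agent.Results.MP_7b7176_co.PermOrder
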